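import Pool.Agent.Work.MP_80812c_nt.T3.Fin

namespace Pool.Agent.Results.MP_80812c_nt.CubeRootThree

/-- Exponential lower bounds for the dimensions of the rational spans of the multiple Clausen
values and of the multiple Glaisher values of weight `k` at `π / 3`. -/
theorem result :
  ∃ c : ℝ, 0 < c ∧ ∀ k : ℕ, 2 ≤ k →
      c * (3 : ℝ) ^ ((k : ℝ) / 3) / (k : ℝ) ^ 2 ≤
        (Module.finrank ℚ (Submodule.span ℚ {x : ℝ | ∃ (d : ℕ) (s : Fin d → ℕ),
          (∀ j, 1 ≤ s j) ∧ ∑ j, s j = k ∧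
          Filter.Tendsto (fun N : ℕ => (if Even k then Complex.im else Complex.re)
            (∑ n ∈ (Fintype.piFinset (fun _ : Fin d => Finset.Icc 1 N)).filter
                (fun n => ∀ i j : Fin d, i < j → n j < n i),
              Complex.exp (((Real.pi / 3 : ℝ) : ℂ) * Complex.I) ^ (Finset.univ.sup n)
                / ∏ j, ((n j : ℂ) ^ (s j))))
            Filter.atTop (nhds x)}) : ℝ) ∧
      c * (3 : ℝ) ^ ((k : ℝ) / 3) / (k : ℝ) ^ 2 ≤
        (Module.finrank ℚ (Submodule.span ℚ {x : ℝ | ∃ (d : ℕ) (s : Fin d → ℕ),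
          (∀ j, 1 ≤ s j) ∧ ∑ j, s j = k ∧
          Filter.Tendsto (fun N : ℕ => (if Even k then Complex.re else Complex.im)
            (∑ n ∈ (Fintype.piFinset (fun _ : Fin d => Finset.Icc 1 N)).filter
                (fun n => ∀ i j : Fin d, i < j → n j < n i),
              Complex.exp (((Real.pi / 3 : ℝ) : ℂ) * Complex.I) ^ (Finset.univ.sup n)
                / ∏ j, ((n j : ℂ) ^ (s j))))
            Filter.atTop (nhds x)}) : ℝ) := by
  obtain ⟨c, hc, h⟩ := MC3.lower_min3
  refine ⟨c, hc, fun k hk => ⟨(h k hk).trans (Nat.cast_le.2 ((min_le_left _ _).trans ?_)),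
    (h k hk).trans (Nat.cast_le.2 ((min_le_right _ _).trans ?_))⟩⟩
  · refine MCV.map_le (by omega) _ _ ?_ fun z => ?_
    · split_ifs
      exacts [Complex.continuous_im, Complex.continuous_re]
    · obtain ⟨q, -, h1, -⟩ := MCV.twist k z
      exact ⟨q, h1⟩
  · refine MCV.map_le (by omega) _ _ ?_ fun z => ?_
    · split_ifs
      exacts [Complex.continuous_re, Complex.continuous_im]
    · obtain ⟨-, q, -, h1⟩ := MCV.twist k z
      exact ⟨q, h1⟩

end Pool.Agent.Results.MP_80812c_nt.CubeRootThree
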